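import Pool.Agent.Helper45.FQ.Lat2
import Pool.Agent.Helper85.KL.Biloc

/-!
# Project FQ (MP_0f6f3f_an): sizes of the elements of a lattice

`LG G I`: gap functions on a group, which change by a bounded amount under multiplication by compact sets and take all
values. For a lattice with section `σ` (helper45's `HC`): `tight_sigma`, `coc_gap` (the gaps of `a(g, x)` are those of `g`, up to a
bounded error in probability, uniformly in `g`), `sec_gap` (the same for `σ(x) g σ(x')⁻¹`), `exists_ext` (the field `ext`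
of `KL.Nodes`).
-/

set_option autoImplicit false

open MeasureTheory Filter Topology Set
open scoped ENNReal

namespace Pool.Agent.Helper85.FQ

open Pool.Agent.Helper45.FQ Pool.Agent.Helper85.KL

/-- Gap functions on a group. -/
structure LG (G : Type) [Group G] [TopologicalSpace G] (I : Type) where
  gp : G → I → ℝ
  nonneg : ∀ g i, 0 ≤ gp g i
  cpt : ∀ K : Set G, IsCompact K → ∃ C : ℝ, ∀ k ∈ K, ∀ k' ∈ K, ∀ g i, |gp (k * g * k') i - gp g i| ≤ C
  dom : ∀ c : I → ℝ, (∀ i, 0 ≤ c i) → ∃ g, ∀ i, gp g i = c i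

section

variable {G X Λ I : Type} [Group G] [TopologicalSpace G] [IsTopologicalGroup G] [SecondCountableTopology G]
  [LocallyCompactSpace G] [T2Space G] [MeasurableSpace G] [BorelSpace G] [MeasurableSpace X] [MulAction G X] [Group Λ]
  {ν : Measure X} [IsProbabilityMeasure ν] {a : G → X → Λ} {j : Λ →* G} {hm : Measure G} {σ : X → G}

omit [IsTopologicalGroup G] [MulAction G X] [Group G] in
theorem tight_sigma {σ : X → G} (hσ : Measurable σ) {ε : ℝ} (hε : 0 < ε) :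
    ∃ K : Set G, IsCompact K ∧ ν.real {x | σ x ∉ K} ≤ ε := by
  have h1 : Tendsto (fun n => ν (σ ⁻¹' (compactCovering G n)ᶜ)) atTop (𝓝 0) := by
    have h2 : ν (⋂ n, σ ⁻¹' (compactCovering G n)ᶜ) = 0 := by
      have h3 : (⋂ n, σ ⁻¹' (compactCovering G n)ᶜ) = (∅ : Set X) := by
        rw [eq_empty_iff_forall_notMem]
        intro x hx
        obtain ⟨n, hn⟩ := exists_mem_compactCovering (σ x)
        exact (mem_iInter.1 hx n) hn
      rw [h3, measure_empty]
    rw [← h2]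
    refine tendsto_measure_iInter_atTop (fun n => ?_) (fun m n hmn => ?_) ⟨0, measure_ne_top _ _⟩
    · exact (hσ (isCompact_compactCovering G n).isClosed.measurableSet.compl).nullMeasurableSet
    · exact preimage_mono (compl_subset_compl.2 (compactCovering_subset G hmn))
  have h4 := (ENNReal.tendsto_atTop_zero.1 h1) (ENNReal.ofReal ε) (ENNReal.ofReal_pos.2 hε)
  obtain ⟨n, hn⟩ := h4
  refine ⟨compactCovering G n, isCompact_compactCovering G n, ?_⟩
  exact ENNReal.toReal_le_of_le_ofReal hε.le (hn n le_rfl)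

/-- **The gaps of `a(g, x)`.** -/
theorem coc_gap [SMulInvariantMeasure G X ν] [MeasurableConstSMul G X] (h : HC ν a j hm σ) (S : LG G I) {ε : ℝ} (hε : 0 < ε) :
    ∃ C : ℝ, 0 ≤ C ∧ ∀ g : G, ν.real {x | ∃ i, C < |S.gp (j (a g x)) i - S.gp g i|} ≤ ε := by
  obtain ⟨K, hK, h1⟩ := tight_sigma (ν := ν) h.ms (half_pos hε)
  obtain ⟨C, hC⟩ := S.cpt (K ∪ K⁻¹) (hK.union hK.inv)
  refine ⟨max C 0, le_max_right _ _, fun g => ?_⟩
  have h2 : ν.real {x | σ (g • x) ∉ K} ≤ ε / 2 := by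
    have h3 : {x | σ (g • x) ∉ K} = (fun x => g • x) ⁻¹' {x | σ x ∉ K} := rfl
    unfold Measure.real
    rw [h3, measure_preimage_smul]
    exact h1
  have h4 : {x | ∃ i, max C 0 < |S.gp (j (a g x)) i - S.gp g i|} ⊆ {x | σ x ∉ K} ∪ {x | σ (g • x) ∉ K} := by
    rintro x ⟨i, hi⟩
    by_contra hc
    simp only [mem_union, mem_ofPred_eq, not_or, not_not] at hc
    have h5 : j (a g x) = (σ (g • x))⁻¹ * g * σ x := by
      rw [mul_assoc, h.coc g x, inv_mul_cancel_left]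
    have h6 := hC (σ (g • x))⁻¹ (Or.inr (Set.inv_mem_inv.2 hc.2)) (σ x) (Or.inl hc.1) g i
    rw [← h5] at h6
    exact absurd (lt_of_le_of_lt (le_max_left _ _) hi) (not_lt.2 h6)
  calc ν.real {x | ∃ i, max C 0 < |S.gp (j (a g x)) i - S.gp g i|}
      ≤ ν.real ({x | σ x ∉ K} ∪ {x | σ (g • x) ∉ K}) := measureReal_mono h4
    _ ≤ ν.real {x | σ x ∉ K} + ν.real {x | σ (g • x) ∉ K} := measureReal_union_le _ _
    _ ≤ ε := by linarith

/-- **The gaps of `σ(x) g σ(x')⁻¹`.** -/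
theorem sec_gap (h : HC ν a j hm σ) (S : LG G I) {ε : ℝ} (hε : 0 < ε) :
    ∃ C : ℝ, 0 ≤ C ∧ ∀ g : G, (ν.prod ν).real {y | ∃ i, C < |S.gp (σ y.1 * g * (σ y.2)⁻¹) i - S.gp g i|} ≤ ε := by
  obtain ⟨K, hK, h1⟩ := tight_sigma (ν := ν) h.ms (half_pos hε)
  obtain ⟨C, hC⟩ := S.cpt (K ∪ K⁻¹) (hK.union hK.inv)
  refine ⟨max C 0, le_max_right _ _, fun g => ?_⟩
  have h4 : {y : X × X | ∃ i, max C 0 < |S.gp (σ y.1 * g * (σ y.2)⁻¹) i - S.gp g i|} ⊆
      ({x | σ x ∉ K} ×ˢ univ) ∪ (univ ×ˢ {x | σ x ∉ K}) := by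
    rintro y ⟨i, hi⟩
    by_contra hc
    simp only [mem_union, mem_prod, mem_ofPred_eq, mem_univ, and_true, true_and, not_or, not_not] at hc
    have h6 := hC (σ y.1) (Or.inl hc.1) (σ y.2)⁻¹ (Or.inr (Set.inv_mem_inv.2 hc.2)) g i
    exact absurd (lt_of_le_of_lt (le_max_left _ _) hi) (not_lt.2 h6)
  have h5 : (ν.prod ν).real ({x | σ x ∉ K} ×ˢ univ) = ν.real {x | σ x ∉ K} := by
    rw [measureReal_prod_prod]
    simp
  have h6 : (ν.prod ν).real (univ ×ˢ {x | σ x ∉ K}) = ν.real {x | σ x ∉ K} := by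
    rw [measureReal_prod_prod]
    simp
  calc (ν.prod ν).real {y | ∃ i, max C 0 < |S.gp (σ y.1 * g * (σ y.2)⁻¹) i - S.gp g i|}
      ≤ (ν.prod ν).real (({x | σ x ∉ K} ×ˢ univ) ∪ (univ ×ˢ {x | σ x ∉ K})) := measureReal_mono h4
    _ ≤ (ν.prod ν).real ({x | σ x ∉ K} ×ˢ univ) + (ν.prod ν).real (univ ×ˢ {x | σ x ∉ K}) :=
        measureReal_union_le _ _
    _ ≤ ε := by rw [h5, h6]; linarith

/-- Elements of the lattice with gaps close to a given vector. -/
theorem exists_elt [SMulInvariantMeasure G X ν] [MeasurableConstSMul G X] (h : HC ν a j hm σ) (S : LG G I) :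
    ∃ C : ℝ, 0 ≤ C ∧ ∀ c : I → ℝ, (∀ i, 0 ≤ c i) → ∃ l : Λ, ∀ i, |S.gp (j l) i - c i| ≤ C := by
  obtain ⟨C, hC, h1⟩ := coc_gap h S (ε := 1 / 2) (by norm_num)
  refine ⟨C, hC, fun c hc => ?_⟩
  obtain ⟨g, hg⟩ := S.dom c hc
  have h2 : ∃ x, x ∉ {x | ∃ i, C < |S.gp (j (a g x)) i - S.gp g i|} := by
    by_contra hcon
    push Not at hcon
    have h3 : {x | ∃ i, C < |S.gp (j (a g x)) i - S.gp g i|} = univ := eq_univ_of_forall hcon
    have h4 := h1 g
    rw [h3, probReal_univ] at h4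
    norm_num at h4
  obtain ⟨x, hx⟩ := h2
  simp only [mem_ofPred_eq, not_exists, not_lt] at hx
  exact ⟨a g x, fun i => by rw [← hg i]; exact hx i⟩

/-- The field `ext` of `KL.Nodes` for a lattice. -/
theorem exists_ext [SMulInvariantMeasure G X ν] [MeasurableConstSMul G X] (h : HC ν a j hm σ) (S : LG G I) (i : I) :
    ∃ C₀ : ℝ, 0 ≤ C₀ ∧ ∀ b : Λ, ∀ L : ℝ, 0 ≤ L → ∃ b' : Λ, nr (fun l => S.gp (j l)) i C₀ b b' ∧
      L ≤ S.gp (j b') i ∧ S.gp (j b') i ≤ L + C₀ := by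
  classical
  obtain ⟨C, hC, h1⟩ := exists_elt h S
  refine ⟨2 * C, by positivity, fun b L hL => ?_⟩
  obtain ⟨l, hl⟩ := h1 (fun v => if v = i then L + C else S.gp (j b) v) (fun v => by
    split_ifs
    · positivity
    · exact S.nonneg _ _)
  have h2 := hl i
  rw [if_pos rfl, abs_le] at h2
  refine ⟨l, fun v hv => ?_, by linarith, by linarith⟩
  have h3 := hl v
  rw [if_neg hv, abs_sub_comm] at h3
  linarith

end

end Pool.Agent.Helper85.FQ
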