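import Pool.Agent.Helper55.FQ.Cfg

/-!
# Project FQ (MP_0f6f3f_an), layer SZ for the configuration `Cf`

From `Cf` (one direction) and the size map `SizeMap (pE E) (gG D Γ) b1 f` (for example `Loc.size`, `b1 k i = gG D' Λ k (e i)`): masses of `V_g 1` for all `g`
with one (two) large gaps, helper83's `Sizes`, masses of `V_{w_u^n l} 1`, uniformly in `l`.
-/

set_option autoImplicit false
set_option linter.unusedSectionVars false

open Filter Topology MeasureTheory Matrix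

namespace Pool.Agent.Helper85.FQ

open Pool.Agent.Helper84.NI Pool.Agent.Helper84.GVN Pool.Agent.Helper90.RK
open Pool.Agent.Helper96.RK Pool.Agent.Helper66.FR Pool.Agent.Helper84.FR Pool.Agent.Helper55.FR Pool.Agent.Helper78.BM
open Pool.Agent.Helper35.TZ (autC isAdj_autC)
open Pool.Agent.Helper84.GDL (GD SI)
open Pool.Agent.Helper45.FQ (HC pE ds_pE LGof)
open Pool.Agent.Helper55.OB (Cyc)
open Pool.Agent.Helper55.FQ
open Pool.Agent.Helper85.KL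

variable {L L' : Type} [LieRing L] [LieAlgebra ℝ L] [LieRing L'] [LieAlgebra ℝ L'] {N N' : ℕ} {r : ℕ}
  {θ : L ≃ₗ⁅ℝ⁆ L} {θ' : L' ≃ₗ⁅ℝ⁆ L'} {b : Module.Basis (Fin N) ℝ L} {b' : Module.Basis (Fin N') ℝ L'}
  {A : Submodule ℝ L} {A' : Submodule ℝ L'} {τ : Module.Dual ℝ A ≃ₗ[ℝ] A} {τ' : Module.Dual ℝ A' ≃ₗ[ℝ] A'}
  {al : Fin r → Module.Dual ℝ A} {al' : Fin r → Module.Dual ℝ A'} {W : Fin r → A} {W' : Fin r → A'}
  {D : GD (autC b) (Fin r)} {D' : GD (autC b') (Fin r)} [MeasurableSpace (autC b)] [BorelSpace (autC b)]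
  {Γ : Subgroup (autC b)} {Λ : Subgroup (autC b')} [Countable Γ] [Countable Λ]
  {X : Type} [MeasurableSpace X] [MulAction (autC b) X] [MeasurableConstSMul (autC b) X] {μ : Measure X}
  [SMulInvariantMeasure (autC b) X μ] [IsProbabilityMeasure μ] {a : Cocy (autC b) X Γ} {E : Emb Γ Λ}
  {b1 : Λ → Fin r → ℝ} {f : Fin r → ℝ → ℝ}

/-- Sizes of `V_g 1`, one large gap. -/
theorem cf_mass_size (C : Cf θ θ' A A' τ τ' al al' W W' D D' μ a E) (hf : SizeMap (pE E) (gG D Γ) b1 f) {ε : ℝ} (hε : 0 < ε) :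
    ∃ R K : ℝ, ∀ (u : Fin r) (g : autC b), R ≤ D.mu g u →
      Pool.Agent.Helper9.FQ.mass μ a E {k | ∃ i, i ≠ u ∧ K < |b1 k i - f i (D.mu g i)|} g ≤ ε := by
  obtain ⟨i1, i2, i3⟩ := Pool.Agent.Helper35.TZ.lcs_autC b
  obtain ⟨hm, σ, hc, _⟩ := C.hc
  exact mass_size D hc hf hε

/-- Sizes of `V_g 1`, two large gaps. -/
theorem cf_mass_size2 (C : Cf θ θ' A A' τ τ' al al' W W' D D' μ a E) (hf : SizeMap (pE E) (gG D Γ) b1 f) {ε : ℝ} (hε : 0 < ε) :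
    ∃ R K : ℝ, ∀ (u v : Fin r) (g : autC b), u ≠ v → R ≤ D.mu g u → R ≤ D.mu g v →
      Pool.Agent.Helper9.FQ.mass μ a E {k | ∃ i, K < |b1 k i - f i (D.mu g i)|} g ≤ ε := by
  obtain ⟨i1, i2, i3⟩ := Pool.Agent.Helper35.TZ.lcs_autC b
  obtain ⟨hm, σ, hc, _⟩ := C.hc
  exact mass_size2 D hc hf hε

/-- helper83's `Sizes`. -/
theorem cf_sizes (C : Cf θ θ' A A' τ τ' al al' W W' D D' μ a E) (hf : SizeMap (pE E) (gG D Γ) b1 f) :
    Pool.Agent.Helper83.FQ.Sizes μ a E D.mu b1 f := by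
  obtain ⟨i1, i2, i3⟩ := Pool.Agent.Helper35.TZ.lcs_autC b
  obtain ⟨hm, σ, hc, _⟩ := C.hc
  have hN : Nontrivial (Fin r) := Fin.nontrivial_iff_two_le.2 C.h2
  exact sizes_of D hc hf

/-- Sizes of `V_{w_u^t l} 1`, uniformly in `l`. -/
theorem cf_mass_lev (C : Cf θ θ' A A' τ τ' al al' W W' D D' μ a E) (hf : SizeMap (pE E) (gG D Γ) b1 f) {ε : ℝ} (hε : 0 < ε) :
    ∃ K : ℝ, ∀ (u : Fin r) (l : autC b) (c : Fin r → ℝ), (∀ᶠ t : ℝ in atTop, D.mu (D.ea (Pi.single u t) * l) = c + Pi.single u t) →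
      ∀ᶠ t : ℝ in atTop, Pool.Agent.Helper9.FQ.mass μ a E {k | ∃ i, i ≠ u ∧ K < |b1 k i - f i (c i)|}
        (D.ea (Pi.single u t) * l) ≤ ε := by
  obtain ⟨i1, i2, i3⟩ := Pool.Agent.Helper35.TZ.lcs_autC b
  obtain ⟨hm, σ, hc, _⟩ := C.hc
  exact mass_lev D hc hf hε

/-- The same for the sequence `wn D u n`. -/
theorem cf_mass_wn (C : Cf θ θ' A A' τ τ' al al' W W' D D' μ a E) (hf : SizeMap (pE E) (gG D Γ) b1 f) {ε : ℝ} (hε : 0 < ε) :
    ∃ K : ℝ, ∀ (u : Fin r) (l : autC b) (c : Fin r → ℝ), (∀ᶠ t : ℝ in atTop, D.mu (D.ea (Pi.single u t) * l) = c + Pi.single u t) →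
      ∀ᶠ n : ℕ in atTop, Pool.Agent.Helper9.FQ.mass μ a E {k | ∃ i, i ≠ u ∧ K < |b1 k i - f i (c i)|} (wn D u n * l) ≤ ε := by
  obtain ⟨K, hK⟩ := cf_mass_lev C hf hε
  exact ⟨K, fun u l c hc => tendsto_natCast_atTop_atTop.eventually (hK u l c hc)⟩

/-- The gaps of `w_u^t l` for `l` in the centralizer of the flat of the node `u`. -/
theorem exists_lev_ev (D : GD (autC b) (Fin r)) (u : Fin r) {l : autC b}
    (hl : ∀ t : ℝ, l * D.ea (Pi.single u t) = D.ea (Pi.single u t) * l) :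
    ∃ c : Fin r → ℝ, (∀ i, i ≠ u → 0 ≤ c i) ∧ ∀ᶠ t : ℝ in atTop, D.mu (D.ea (Pi.single u t) * l) = c + Pi.single u t := by
  obtain ⟨i1, i2, i3⟩ := Pool.Agent.Helper35.TZ.lcs_autC b
  obtain ⟨c, hc, h⟩ := exists_lev D u hl
  refine ⟨c, hc, ?_⟩
  filter_upwards [eventually_ge_atTop (-c u)] with t ht
  exact h t (by linarith)

end Pool.Agent.Helper85.FQ
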