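import Pool.Agent.Helper55.FQ.Cfg

/-!
# Project FQ (MP_0f6f3f_an): the first half for the configuration `Cf`

`exists_ext_cf`: the field `ext` for both lattices. `loc_of`: `Cf.loc` from the sandwiches (`Cf.sand`) of both directions.
-/

set_option autoImplicit false
set_option linter.unusedSectionVars false

open Filter Topology MeasureTheory Matrix

namespace Pool.Agent.Helper85.FQ

open Pool.Agent.Helper84.NI Pool.Agent.Helper84.GVN Pool.Agent.Helper90.RK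
open Pool.Agent.Helper96.RK Pool.Agent.Helper66.FR Pool.Agent.Helper84.FR Pool.Agent.Helper55.FR Pool.Agent.Helper78.BM
open Pool.Agent.Helper35.TZ (autC isAdj_autC)
open Pool.Agent.Helper84.GDL (GD SI)
open Pool.Agent.Helper45.FQ (HC pE ds_pE LGof)
open Pool.Agent.Helper55.OB (Cyc)
open Pool.Agent.Helper55.FQ
open Pool.Agent.Helper85.KL
open Pool.Agent.Helper20.FQ (TightN)

variable {L L' : Type} [LieRing L] [LieAlgebra ℝ L] [LieRing L'] [LieAlgebra ℝ L'] {N N' : ℕ} {r : ℕ}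
  {θ : L ≃ₗ⁅ℝ⁆ L} {θ' : L' ≃ₗ⁅ℝ⁆ L'} {b : Module.Basis (Fin N) ℝ L} {b' : Module.Basis (Fin N') ℝ L'}
  {A : Submodule ℝ L} {A' : Submodule ℝ L'} {τ : Module.Dual ℝ A ≃ₗ[ℝ] A} {τ' : Module.Dual ℝ A' ≃ₗ[ℝ] A'}
  {al : Fin r → Module.Dual ℝ A} {al' : Fin r → Module.Dual ℝ A'} {W : Fin r → A} {W' : Fin r → A'}
  {D : GD (autC b) (Fin r)} {D' : GD (autC b') (Fin r)} [MeasurableSpace (autC b)] [BorelSpace (autC b)]
  [MeasurableSpace (autC b')] [BorelSpace (autC b')] {Γ : Subgroup (autC b)} {Λ : Subgroup (autC b')} [Countable Γ] [Countable Λ]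
  {X : Type} [MeasurableSpace X] [MulAction (autC b) X] [MeasurableConstSMul (autC b) X] {μ : Measure X}
  [SMulInvariantMeasure (autC b) X μ] [IsProbabilityMeasure μ] {a : Cocy (autC b) X Γ} {E : Emb Γ Λ}
  {X' : Type} [MeasurableSpace X'] [MulAction (autC b') X'] [MeasurableConstSMul (autC b') X'] {μ' : Measure X'}
  [SMulInvariantMeasure (autC b') X' μ'] [IsProbabilityMeasure μ'] {a' : Cocy (autC b') X' Λ} {E' : Emb Λ Γ}

/-- The field `ext` for the lattice of the source. -/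
theorem exists_ext_cf (C : Cf θ θ' A A' τ τ' al al' W W' D D' μ a E) (i : Fin r) :
    ∃ C₀ : ℝ, 0 ≤ C₀ ∧ ∀ l : Γ, ∀ R : ℝ, 0 ≤ R → ∃ l' : Γ, nr (gG D Γ) i C₀ l l' ∧ R ≤ gG D Γ l' i ∧ gG D Γ l' i ≤ R + C₀ := by
  obtain ⟨i1, i2, i3⟩ := Pool.Agent.Helper35.TZ.lcs_autC b
  obtain ⟨hm, σ, hc, _⟩ := C.hc
  exact exists_ext hc (LGof D) i

/-- **`Cf.loc` from the sandwiches.** -/
theorem loc_of (C : Cf θ θ' A A' τ τ' al al' W W' D D' μ a E) (C' : Cf θ' θ A' A τ' τ al' al W' W D' D μ' a' E')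
    (dual : ∀ l k, pE E' k l = pE E l k) {s t : Fin r → Fin r}
    (h : ∀ u, ∃ th : Γ → Set Λ → ℝ, Sand (pE E) (nr (gG D Γ) u) (fun l => gG D Γ l u) (nr (gG D' Λ) (s u)) (fun k => gG D' Λ k (s u)) th ∧
      ∀ l, TightN (gG D' Λ) (s u) (th l))
    (h' : ∀ u, ∃ th : Λ → Set Γ → ℝ, Sand (pE E') (nr (gG D' Λ) u) (fun l => gG D' Λ l u) (nr (gG D Γ) (t u)) (fun k => gG D Γ k (t u)) th ∧
      ∀ l, TightN (gG D Γ) (t u) (th l)) :
    ∃ e : Fin r ≃ Fin r, (∀ u, e u = s u) ∧ (∀ j, e.symm j = t j) ∧ ∃ f f' : Fin r → ℝ → ℝ,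
      Loc (pE E) (gG D Γ) (fun k i => gG D' Λ k (e i)) f f' := by
  have e1 : pE E' = fun k l => pE E l k := funext fun k => funext fun l => dual l k
  rw [e1] at h'
  exact exists_loc C.h2 (ds_pE C.cyc.full) (fun l i => D.mu_nonneg _ _) (fun k i => D'.mu_nonneg _ _) C.hf C.hf' h h'
    (exists_ext_cf C) (exists_ext_cf C')

end Pool.Agent.Helper85.FQ
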