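import Pool.Agent.Helper83.FQ.BusC
import Pool.Agent.Helper45.FQ.Loc6
import Pool.Agent.Helper9.FQ.U1
import Pool.Agent.Helper85.KL.Sizes

/-!
# Project FQ (MP_0f6f3f_an), layer SZ: sizes of `V_g 1` for all `g`

`mass_size`: for all `g ∈ G₁` with one large gap `u`, the gaps `i ≠ u` of the law of `V_g 1` are `f i (mu g i)`, up to a bounded error
in probability, uniformly in `g`. `mass_size2`: two large gaps, all `i`. `sizes_of`: helper83's `Sizes`. `mu_lev`: the gaps of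
`w_u^t l` for `l` in the centralizer of `w_u`. `mass_lev`: the sizes of `V_{w_u^t l} 1`, uniformly in `l`.
-/

set_option autoImplicit false
set_option linter.unusedSectionVars false
set_option linter.unusedVariables false

open MeasureTheory Filter Topology
open scoped ENNReal Pointwise ComplexConjugate

namespace Pool.Agent.Helper85.FQ

open Pool.Agent.Helper84 Pool.Agent.Helper84.GN Pool.Agent.Helper84.GN.S3 Pool.Agent.Helper84.GN.S3.X
open Pool.Agent.Helper84.NI Pool.Agent.Helper84.GVN Pool.Agent.Helper90.RK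
open Pool.Agent.Helper96.RK Pool.Agent.Helper66.FR Pool.Agent.Helper84.FR Pool.Agent.Helper55.FR Pool.Agent.Helper78.BM
open Pool.Agent.Helper85.KL Pool.Agent.Helper84.GDL Pool.Agent.Helper45.FQ Pool.Agent.Helper9.FQ

section P

variable {G Λ : Type} [Group G] [Group Λ] [Countable Λ] {E : Emb Λ G}

/-- The mass in terms of the transition probabilities. -/
theorem norm_ind_cf (l : Λ) (s : Set G) : ‖ind ℂ s (cf (E.U l))‖ ^ 2 = KL.mass (pE E l) s := by
  classical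
  have h1 := lv_hasSum (ind ℂ s (cf (E.U l)) : L2 G)
  rw [← h1.tsum_eq]
  unfold KL.mass
  refine tsum_congr fun k => ?_
  rw [ind_apply]
  by_cases hk : k ∈ s
  · rw [if_pos hk, Set.indicator_of_mem hk]
    rfl
  · rw [if_neg hk, norm_zero, Set.indicator_of_notMem hk]
    norm_num

theorem pw_pE (l : Λ) : PW (pE E l) := ⟨fun k => pE_nonneg l k, pE_row l⟩

end P

section Main

variable {G1 X G Λ : Type} [Group G1] [TopologicalSpace G1] [IsTopologicalGroup G1] [SecondCountableTopology G1] [LocallyCompactSpace G1]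
  [T2Space G1] [MeasurableSpace G1] [BorelSpace G1] [MeasurableSpace X] [MulAction G1 X] [MeasurableConstSMul G1 X] [Group G] [Group Λ] [Countable Λ]
  {μ : Measure X} [SMulInvariantMeasure G1 X μ] [IsProbabilityMeasure μ] {a : Cocy G1 X Λ} {E : Emb Λ G} {j : Λ →* G1} {hm : Measure G1} {σ : X → G1}
  {ι : Type} [Fintype ι] [DecidableEq ι] (D : GD G1 ι)

/-- Masses from the laws of the elements of the lattice. -/
theorem mass_le_of {g : G1} {s : Set G} {P : Λ → Prop} {e e' : ℝ} (he : 0 ≤ e) (h1 : ∀ l, P l → KL.mass (pE E l) s ≤ e)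
    (h2 : μ.real {x | ¬ P (a.a g x)} ≤ e') : Pool.Agent.Helper9.FQ.mass μ a E s g ≤ e + e' := by
  rw [mass_int]
  have hB : MeasurableSet {x | ¬ P (a.a g x)} := by
    have e1 : {x | ¬ P (a.a g x)} = ⋃ l ∈ {l : Λ | ¬ P l}, {x | a.a g x = l} := by
      ext x
      simp
    rw [e1]
    exact MeasurableSet.biUnion (Set.to_countable _) fun l _ => a.meas g l
  have h4 : Integrable (fun x => e + {x | ¬ P (a.a g x)}.indicator (fun _ => (1 : ℝ)) x) μ :=
    (integrable_const _).add ((integrable_const _).indicator hB)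
  refine (integral_mono (mass_integrable (w := fun l => ‖ind ℂ s (cf (E.U l))‖ ^ 2) (abs_ind_cf s) g) h4 fun x => ?_).trans ?_
  · change ‖ind ℂ s (cf (E.U (a.a g x)))‖ ^ 2 ≤ _
    rw [norm_ind_cf]
    by_cases hx : P (a.a g x)
    · rw [Set.indicator_of_notMem (fun h : x ∈ {x | ¬ P (a.a g x)} => h hx), add_zero]
      exact h1 _ hx
    · rw [Set.indicator_of_mem (show x ∈ {x | ¬ P (a.a g x)} from hx)]
      linarith [(pw_pE (E := E) (a.a g x)).mass_le_one s]
  · rw [integral_add (integrable_const _) ((integrable_const _).indicator hB), integral_const, integral_indicator hB, setIntegral_const]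
    simp only [probReal_univ, smul_eq_mul, mul_one]
    linarith

/-- **Sizes of `V_g 1`, one large gap.** -/
theorem mass_size (h : HC μ a.a j hm σ) {b1 : G → ι → ℝ} {f : ι → ℝ → ℝ}
    (hf : SizeMap (pE E) (fun l => D.mu (j l)) b1 f) {ε : ℝ} (hε : 0 < ε) :
    ∃ L C : ℝ, ∀ (u : ι) (g : G1), L ≤ D.mu g u →
      Pool.Agent.Helper9.FQ.mass μ a E {b | ∃ i, i ≠ u ∧ C < |b1 b i - f i (D.mu g i)|} g ≤ ε := by
  obtain ⟨C₂, hC₂, hgap⟩ := coc_gap h (LGof D) (ε := ε / 2) (by positivity)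
  obtain ⟨L, C, h1⟩ := hf.one (ε / 2) (by positivity)
  obtain ⟨K, hK0, hK⟩ := hf.lip C₂
  refine ⟨L + C₂, C + K, fun u g hg => ?_⟩
  have h2 := mass_le_of (μ := μ) (a := a) (E := E) (g := g) (s := {b | ∃ i, i ≠ u ∧ C + K < |b1 b i - f i (D.mu g i)|})
    (P := fun l => ∀ i, |D.mu (j l) i - D.mu g i| ≤ C₂) (e := ε / 2) (e' := ε / 2) (by positivity) (fun l hl => ?_) ?_
  · linarith
  · refine ((pw_pE l).mass_mono ?_).trans (h1 u l (by linarith [(abs_le.1 (hl u)).1]))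
    rintro b ⟨i, hi, hb⟩
    refine ⟨i, hi, ?_⟩
    have h3 := hK i (D.mu (j l) i) (D.mu g i) (D.mu_nonneg _ _) (D.mu_nonneg _ _) (hl i)
    have h4 := abs_sub_le (b1 b i) (f i (D.mu (j l) i)) (f i (D.mu g i))
    change C + K < _ at hb
    change C < |b1 b i - f i (D.mu (j l) i)|
    linarith
  · have e2 : {x | ¬ ∀ i, |D.mu (j (a.a g x)) i - D.mu g i| ≤ C₂} =
        {x | ∃ i, C₂ < |(LGof D).gp (j (a.a g x)) i - (LGof D).gp g i|} := by
      ext x
      simp only [Set.mem_ofPred_eq, not_forall, not_le]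
      rfl
    rw [e2]
    exact hgap g

/-- **Sizes of `V_g 1`, two large gaps.** -/
theorem mass_size2 (h : HC μ a.a j hm σ) {b1 : G → ι → ℝ} {f : ι → ℝ → ℝ}
    (hf : SizeMap (pE E) (fun l => D.mu (j l)) b1 f) {ε : ℝ} (hε : 0 < ε) :
    ∃ L C : ℝ, ∀ (u v : ι) (g : G1), u ≠ v → L ≤ D.mu g u → L ≤ D.mu g v →
      Pool.Agent.Helper9.FQ.mass μ a E {b | ∃ i, C < |b1 b i - f i (D.mu g i)|} g ≤ ε := by
  obtain ⟨C₂, hC₂, hgap⟩ := coc_gap h (LGof D) (ε := ε / 2) (by positivity)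
  obtain ⟨L, C, h1⟩ := hf.two (ε / 2) (by positivity)
  obtain ⟨K, hK0, hK⟩ := hf.lip C₂
  refine ⟨L + C₂, C + K, fun u v g huv hgu hgv => ?_⟩
  have h2 := mass_le_of (μ := μ) (a := a) (E := E) (g := g) (s := {b | ∃ i, C + K < |b1 b i - f i (D.mu g i)|})
    (P := fun l => ∀ i, |D.mu (j l) i - D.mu g i| ≤ C₂) (e := ε / 2) (e' := ε / 2) (by positivity) (fun l hl => ?_) ?_
  · linarith
  · refine ((pw_pE l).mass_mono ?_).trans (h1 u v l huv (by linarith [(abs_le.1 (hl u)).1]) (by linarith [(abs_le.1 (hl v)).1]))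
    rintro b ⟨i, hb⟩
    refine ⟨i, ?_⟩
    have h3 := hK i (D.mu (j l) i) (D.mu g i) (D.mu_nonneg _ _) (D.mu_nonneg _ _) (hl i)
    have h4 := abs_sub_le (b1 b i) (f i (D.mu (j l) i)) (f i (D.mu g i))
    change C + K < _ at hb
    change C < |b1 b i - f i (D.mu (j l) i)|
    linarith
  · have e2 : {x | ¬ ∀ i, |D.mu (j (a.a g x)) i - D.mu g i| ≤ C₂} =
        {x | ∃ i, C₂ < |(LGof D).gp (j (a.a g x)) i - (LGof D).gp g i|} := by
      ext x
      simp only [Set.mem_ofPred_eq, not_forall, not_le]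
      rfl
    rw [e2]
    exact hgap g

/-- helper83's `Sizes`. -/
theorem sizes_of [Nontrivial ι] (h : HC μ a.a j hm σ) {b1 : G → ι → ℝ} {f : ι → ℝ → ℝ}
    (hf : SizeMap (pE E) (fun l => D.mu (j l)) b1 f) : Pool.Agent.Helper83.FQ.Sizes μ a E D.mu b1 f := by
  intro ε hε
  obtain ⟨u, v, huv⟩ := exists_pair_ne ι
  obtain ⟨L, C, h1⟩ := mass_size2 D h hf (ε := ε ^ 2) (by positivity)
  refine ⟨L, C, fun g hg => ?_⟩
  have h2 := h1 u v g huv (hg u) (hg v)
  exact le_of_sq_le_sq h2 hε.le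

/-- The gaps of `w_u^t l`. -/
theorem mu_lev_kak {u : ι} {k1 k2 : G1} (hk1 : k1 ∈ D.K) (hk2 : k2 ∈ D.K) {c : ι → ℝ} (hc : ∀ i, i ≠ u → 0 ≤ c i) {t : ℝ}
    (hcomm : k1 * D.ea (Pi.single u t) = D.ea (Pi.single u t) * k1) (ht : 0 ≤ c u + t) :
    D.mu (D.ea (Pi.single u t) * (k1 * D.ea c * k2)) = c + Pi.single u t := by
  have h1 : D.ea (Pi.single u t) * (k1 * D.ea c * k2) = k1 * D.ea (c + Pi.single u t) * k2 := by
    rw [add_comm, D.ea_add, ← mul_assoc, ← mul_assoc, ← hcomm, mul_assoc k1]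
  rw [h1]
  refine D.mu_kak hk1 hk2 fun i => ?_
  by_cases hi : i = u
  · rw [hi, Pi.add_apply, Pi.single_eq_same]
    exact ht
  · rw [Pi.add_apply, Pi.single_eq_of_ne hi, add_zero]
    exact hc i hi

/-- The gaps of `w_u^t l`, `l` in the centralizer of `w_u`. -/
theorem exists_lev (u : ι) {l : G1} (hl : ∀ t : ℝ, l * D.ea (Pi.single u t) = D.ea (Pi.single u t) * l) :
    ∃ c : ι → ℝ, (∀ i, i ≠ u → 0 ≤ c i) ∧ ∀ t : ℝ, 0 ≤ c u + t → D.mu (D.ea (Pi.single u t) * l) = c + Pi.single u t := by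
  obtain ⟨k1, hk1, k2, hk2, c, hc, e, h1⟩ := D.lev {u} l fun c hc => by
    have h2 : c = Pi.single u (c u) := by
      funext i
      by_cases hi : i = u
      · rw [hi, Pi.single_eq_same]
      · rw [Pi.single_eq_of_ne hi]
        exact hc i hi
    rw [h2]
    exact hl _
  refine ⟨c, fun i hi => hc i hi, fun t ht => ?_⟩
  rw [e]
  refine mu_lev_kak D hk1 hk2 (fun i hi => hc i hi) (h1 _ fun i hi => ?_).1 ht
  exact Pi.single_eq_of_ne hi _

/-- **Sizes of `V_{w_u^t l} 1`**, uniformly in `l`: the gaps different from `u`. -/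
theorem mass_lev (h : HC μ a.a j hm σ) {b1 : G → ι → ℝ} {f : ι → ℝ → ℝ}
    (hf : SizeMap (pE E) (fun l => D.mu (j l)) b1 f) {ε : ℝ} (hε : 0 < ε) :
    ∃ C : ℝ, ∀ (u : ι) (l : G1) (c : ι → ℝ), (∀ᶠ t : ℝ in atTop, D.mu (D.ea (Pi.single u t) * l) = c + Pi.single u t) →
      ∀ᶠ t : ℝ in atTop, Pool.Agent.Helper9.FQ.mass μ a E {b | ∃ i, i ≠ u ∧ C < |b1 b i - f i (c i)|}
        (D.ea (Pi.single u t) * l) ≤ ε := by
  obtain ⟨L, C, h1⟩ := mass_size D h hf hε
  refine ⟨C, fun u l c hc => ?_⟩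
  filter_upwards [hc, eventually_ge_atTop (L - c u)] with t h2 h3
  have h4 := h1 u (D.ea (Pi.single u t) * l) (by rw [h2, Pi.add_apply, Pi.single_eq_same]; linarith)
  refine (mass_mono ?_ _).trans h4
  rintro b ⟨i, hi, hb⟩
  refine ⟨i, hi, ?_⟩
  rw [h2, Pi.add_apply, Pi.single_eq_of_ne hi, add_zero]
  exact hb

/-- All gaps, if a second gap is large. -/
theorem mass_lev2 (h : HC μ a.a j hm σ) {b1 : G → ι → ℝ} {f : ι → ℝ → ℝ}
    (hf : SizeMap (pE E) (fun l => D.mu (j l)) b1 f) {ε : ℝ} (hε : 0 < ε) :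
    ∃ L C : ℝ, ∀ (u v : ι) (l : G1) (c : ι → ℝ), v ≠ u → L ≤ c v →
      (∀ᶠ t : ℝ in atTop, D.mu (D.ea (Pi.single u t) * l) = c + Pi.single u t) →
      ∀ᶠ t : ℝ in atTop, Pool.Agent.Helper9.FQ.mass μ a E {b | ∃ i, C < |b1 b i - f i ((c + Pi.single u t : ι → ℝ) i)|}
        (D.ea (Pi.single u t) * l) ≤ ε := by
  obtain ⟨L, C, h1⟩ := mass_size2 D h hf hε
  refine ⟨L, C, fun u v l c hv hcv hc => ?_⟩
  filter_upwards [hc, eventually_ge_atTop (L - c u)] with t h2 h3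
  have h4 := h1 u v (D.ea (Pi.single u t) * l) hv.symm (by rw [h2, Pi.add_apply, Pi.single_eq_same]; linarith)
    (by rw [h2, Pi.add_apply, Pi.single_eq_of_ne hv, add_zero]; exact hcv)
  rwa [h2] at h4

end Main

end Pool.Agent.Helper85.FQ
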